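import Pool.Agent.MP_09973c_nt.H58.SpecA

/-!
Escape at a finite place and bounded denominators.
-/

set_option autoImplicit false

namespace Pool.Agent.MP_09973c_nt.H65

open Polynomial Finset Pool.Agent.MP_09973c_nt.H58

theorem norm_rat {l : ℕ} [Fact l.Prime] {r : ℚ} (h : r ≠ 0) :
    ∃ m : ℤ, Real.log ‖(r : PadicAlgCl l)‖ = m * Real.log l := by
  have h1 : ‖(r : PadicAlgCl l)‖ = ‖(r : ℚ_[l])‖ := by
    rw [← PadicAlgCl.norm_extends, map_ratCast]
  refine ⟨-(r : ℚ_[l]).valuation, ?_⟩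
  rw [h1, Padic.norm_eq_zpow_neg_valuation (by exact_mod_cast h), Real.log_zpow]

/-- The value group is controlled by the degree. -/
theorem val_lemma {l : ℕ} [Fact l.Prime] (ψ : Qb →+* PadicAlgCl l) {x : Qb} {H : Subgroup Gal}
    (hH : H.index ≠ 0) (hx : ∀ g ∈ H, g x = x) (h0 : x ≠ 0) :
    ∃ (e : ℕ) (m : ℤ), 1 ≤ e ∧ e ≤ H.index ∧ e * Real.log ‖ψ x‖ = m * Real.log l := by
  classical
  obtain ⟨γ, hγ⟩ := exists_avg_top hH
  let χ : Qb[X] := ∏ i, (X - C (γ i x))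
  have hfix : ∀ (g : Gal) n, g (χ.coeff n) = χ.coeff n := fun g n => by
    have := hγ.prod_eq (fun g => X - C (g x)) (fun g s hs => by simp [hx s hs])
      (Subgroup.mem_top g)
    conv_rhs => rw [show χ = _ from this.symm]
    rw [show g (χ.coeff n) = (χ.map g.toRingEquiv.toRingHom).coeff n by simp]
    simp [χ, Polynomial.map_prod]
  choose r hr using fun n => rat_of_fixed (hfix · n)
  have hmon : χ.Monic := monic_prod_of_monic _ _ fun i _ => monic_X_sub_C _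
  have hdeg : χ.natDegree = H.index := by
    simp only [χ]
    rw [natDegree_prod_of_monic _ _ fun i _ => monic_X_sub_C _]
    simp
  have hroot : χ.eval x = 0 := by
    obtain ⟨i, hi, -⟩ := hγ.2 1 (Subgroup.mem_top _)
    have hix : γ i x = x := hx _ (by simpa using H.inv_mem hi)
    simp only [χ, eval_prod]
    exact prod_eq_zero (mem_univ i) (by simp [hix])
  have hy0 : ψ x ≠ 0 := (map_ne_zero ψ).2 h0
  have hyn : 0 < ‖ψ x‖ := norm_pos_iff.2 hy0
  have hsum : ∑ i ∈ χ.support, (r i : PadicAlgCl l) * ψ x ^ i = 0 := by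
    have h1 := congrArg ψ hroot
    rw [eval_eq_sum, Polynomial.sum, map_sum, map_zero] at h1
    rw [← h1]
    refine sum_congr rfl fun i _ => ?_
    rw [map_mul, map_pow, ← hr i, map_ratCast]
  have hr0 : ∀ i ∈ χ.support, r i ≠ 0 := fun i hi h => by
    have := hr i
    rw [h] at this
    exact mem_support_iff.1 hi (by rw [← this]; simp)
  have hne : χ.support.Nonempty := support_nonempty.2 hmon.ne_zero
  have hpos : ∀ i ∈ χ.support, 0 < ‖(r i : PadicAlgCl l)‖ := fun i hi =>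
    norm_pos_iff.2 (by exact_mod_cast hr0 i hi)
  have hnp : ¬ Set.Pairwise (χ.support : Set ℕ) (fun i j =>
      ‖(r i : PadicAlgCl l) * ψ x ^ i‖ ≠ ‖(r j : PadicAlgCl l) * ψ x ^ j‖) := by
    intro hp
    have h1 := IsUltrametricDist.norm_sum_eq_sup'_of_pairwise_ne hne hp
    rw [hsum, norm_zero] at h1
    obtain ⟨i, hi⟩ := hne
    have h2 := le_sup' (fun i => ‖(r i : PadicAlgCl l) * ψ x ^ i‖) hi
    rw [← h1, norm_mul, norm_pow] at h2
    exact absurd h2 (not_le.2 (mul_pos (hpos i hi) (pow_pos hyn _)))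
  have key : ∀ i ∈ χ.support, ∀ j ∈ χ.support, i < j →
      ‖(r i : PadicAlgCl l) * ψ x ^ i‖ = ‖(r j : PadicAlgCl l) * ψ x ^ j‖ →
      ∃ (e : ℕ) (m : ℤ), 1 ≤ e ∧ e ≤ H.index ∧ e * Real.log ‖ψ x‖ = m * Real.log l := by
    intro i hi j hj hij he
    obtain ⟨a, ha⟩ := norm_rat (l := l) (hr0 i hi)
    obtain ⟨b, hb⟩ := norm_rat (l := l) (hr0 j hj)
    have hjd : j ≤ H.index := hdeg ▸ le_natDegree_of_mem_supp j hj
    refine ⟨j - i, a - b, by omega, by omega, ?_⟩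
    have h1 := congrArg Real.log he
    rw [norm_mul, norm_mul, norm_pow, norm_pow, Real.log_mul (hpos i hi).ne' (pow_pos hyn _).ne',
      Real.log_mul (hpos j hj).ne' (pow_pos hyn _).ne', Real.log_pow, Real.log_pow, ha, hb] at h1
    push_cast [Nat.cast_sub hij.le]
    linarith
  by_contra hcon
  refine hnp fun i hi j hj hij he => hcon ?_
  rcases lt_or_gt_of_ne hij with h | h
  · exact key i hi j hj h he
  · exact key j hj i hi h he.symm

section Ultra
variable {F : Type} [NormedField F] [IsUltrametricDist F]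

theorem step_le_max {p q : ℕ} {c x y : F} (h : y ^ p + c = x ^ q) : ‖y‖ ^ p ≤ max (‖x‖ ^ q) ‖c‖ := by
  rw [← norm_pow, ← norm_pow, eq_sub_of_add_eq h, sub_eq_add_neg, ← norm_neg c]
  exact IsUltrametricDist.norm_add_le_max _ _

theorem step_eq {p q : ℕ} {c x y : F} (h : y ^ p + c = x ^ q) (hc : ‖c‖ < ‖x‖ ^ q) :
    ‖y‖ ^ p = ‖x‖ ^ q := by
  rw [← norm_pow, eq_sub_of_add_eq h, sub_eq_add_neg,
    IsUltrametricDist.norm_add_eq_max_of_norm_ne_norm (by rw [norm_neg, norm_pow]; exact hc.ne'),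
    norm_neg, norm_pow, max_eq_left hc.le]

theorem chain_eq {p q s : ℕ} (hpq : p < q) {c : F} {z : ℕ → F} (hz : Bwd p q c s z)
    (h0 : max 1 ‖c‖ < ‖z 0‖ ^ q) : ∀ k ≤ s, max 1 ‖c‖ < ‖z k‖ ^ q ∧
      (p : ℝ) ^ k * Real.log ‖z k‖ = (q : ℝ) ^ k * Real.log ‖z 0‖ := by
  intro k
  induction k with
  | zero => intro _; exact ⟨h0, by simp⟩
  | succ k ih =>
    intro hk
    obtain ⟨h1, h2⟩ := ih (by omega)
    have h3 := step_eq (hz k (by omega)) ((le_max_right _ _).trans_lt h1)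
    have h4 : 1 ≤ ‖z (k + 1)‖ := by
      by_contra h
      have := pow_le_one₀ (n := p) (norm_nonneg (z (k + 1))) (not_le.1 h).le
      linarith [le_max_left 1 ‖c‖]
    refine ⟨h1.trans_le (h3 ▸ pow_le_pow_right₀ h4 hpq.le), ?_⟩
    have h5 := congrArg Real.log h3
    rw [Real.log_pow, Real.log_pow] at h5
    rw [pow_succ, pow_succ, mul_assoc, h5]
    linear_combination (q : ℝ) * h2

theorem le_of_pow_le {p : ℕ} (hp : 0 < p) {N y B : ℝ} (hN0 : 0 ≤ N) (hN : N ≤ 1)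
    (h : y ^ p ≤ B) (hB : N * B ≤ 1) : N * y ≤ 1 := by
  rcases le_total y 1 with h1 | h1
  · nlinarith
  · exact (mul_le_mul_of_nonneg_left ((le_self_pow₀ h1 hp.ne').trans h) hN0).trans hB

theorem grow {p q s : ℕ} (hp : 0 < p) (hq : 0 < q) {c : F} {z : ℕ → F} (hz : Bwd p q c s z)
    {N : ℝ} (hN0 : 0 ≤ N) (hN : N ≤ 1) (hc : N * ‖c‖ ≤ 1) (h0 : N * ‖z 0‖ ≤ 1) :
    ∀ k ≤ s, N ^ q ^ k * ‖z k‖ ≤ 1 := by
  intro k
  induction k with
  | zero => intro _; simpa using h0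
  | succ k ih =>
    intro hk
    refine le_of_pow_le hp (by positivity) (pow_le_one₀ hN0 hN) (step_le_max (hz k (by omega))) ?_
    rw [mul_max_of_nonneg _ _ (by positivity)]
    refine max_le ?_ ?_
    · rw [pow_succ, pow_mul, ← mul_pow]
      exact pow_le_one₀ (by positivity) (ih (by omega))
    · refine le_trans (mul_le_mul_of_nonneg_right ?_ (norm_nonneg _)) hc
      exact pow_le_of_le_one hN0 hN (by positivity)

theorem first {p q n : ℕ} (hp : 0 < p) {c : F} {t : ℕ → F} (ht : Bwd p q c n t)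
    {N : ℝ} (hN0 : 0 ≤ N) (hN : N ≤ 1) (hc : N * ‖c‖ ≤ 1) (h0 : N * ‖t 0‖ ≤ 1) :
    ∀ j ≤ n, ∃ i ≤ j, N * ‖t i‖ ≤ 1 ∧ (i = j ∨ max 1 ‖c‖ < ‖t i‖ ^ q) := by
  intro j
  induction j with
  | zero => intro _; exact ⟨0, le_rfl, h0, Or.inl rfl⟩
  | succ j ih =>
    intro hj
    obtain ⟨i, hi, h1, h2⟩ := ih (by omega)
    by_cases h3 : max 1 ‖c‖ < ‖t i‖ ^ q
    · exact ⟨i, by omega, h1, Or.inr h3⟩
    · obtain rfl := h2.resolve_right h3
      refine ⟨i + 1, le_rfl, ?_, Or.inl rfl⟩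
      refine le_of_pow_le hp hN0 hN ((step_le_max (ht i (by omega))).trans
        (max_le (not_lt.1 h3) (le_max_right _ _))) ?_
      rw [mul_max_of_nonneg _ _ hN0]
      exact max_le (by linarith) hc

end Ultra

theorem na : NAStmt := by
  intro p q hp hpq hco l _ ψ c s z H hz h0 hH hfix
  have hl : (2 : ℝ) ≤ l := by exact_mod_cast (Fact.out : l.Prime).two_le
  have hlog : 1 / 2 ≤ Real.log l :=
    le_trans (by linarith [Real.log_two_gt_d9]) (Real.log_le_log (by norm_num) hl)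
  have hch := chain_eq hpq (hz.map ψ) h0
  have hgt : ∀ k ≤ s, 1 < ‖ψ (z k)‖ := fun k hk => by
    by_contra h
    have h1 := pow_le_one₀ (n := q) (norm_nonneg (ψ (z k))) (not_lt.1 h)
    have h2 := (hch k hk).1
    linarith [le_max_left 1 ‖ψ c‖]
  have hne : ∀ k ≤ s, z k ≠ 0 := fun k hk h => by
    have := hgt k hk
    rw [h, map_zero, norm_zero] at this
    linarith
  obtain ⟨e₀, m₀, a1, a2, a3⟩ := val_lemma ψ hH (fun g hg => (hfix g hg).1) (hne 0 (by omega))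
  obtain ⟨e, m, b1, b2, b3⟩ := val_lemma ψ hH (fun g hg => (hfix g hg).2) (hne s le_rfl)
  have h2 := (hch s le_rfl).2
  have hL : 0 < Real.log ‖ψ (z 0)‖ := Real.log_pos (hgt 0 (by omega))
  rw [lp_eq_log (hgt 0 (by omega)).le]
  have he0 : (1 : ℝ) ≤ e₀ := by exact_mod_cast a1
  have hm0 : 0 < m₀ := by
    have : (0 : ℝ) < m₀ := by
      by_contra h
      have : (m₀ : ℝ) * Real.log l ≤ 0 := mul_nonpos_of_nonpos_of_nonneg (not_lt.1 h) (by linarith)
      nlinarith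
    exact_mod_cast this
  have h3 : (p : ℤ) ^ s * (m * e₀) = (q : ℤ) ^ s * (m₀ * e) := by
    have : ((p : ℝ) ^ s * (m * e₀)) * Real.log l = ((q : ℝ) ^ s * (m₀ * e)) * Real.log l := by
      linear_combination (e * e₀ : ℝ) * h2 - (p : ℝ) ^ s * e₀ * b3 + (q : ℝ) ^ s * e * a3
    exact_mod_cast mul_right_cancel₀ (by linarith) this
  have h4 : (p : ℤ) ^ s ∣ m₀ * e :=
    (Nat.isCoprime_iff_coprime.2 hco).pow.dvd_of_dvd_mul_left ⟨_, h3.symm⟩
  have h5 : (p : ℝ) ^ s ≤ m₀ * e := by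
    exact_mod_cast Int.le_of_dvd (mul_pos hm0 (by exact_mod_cast b1)) h4
  have a2' : (e₀ : ℝ) ≤ H.index := by exact_mod_cast a2
  have b2' : (e : ℝ) ≤ H.index := by exact_mod_cast b2
  have hm0' : (0 : ℝ) ≤ m₀ := by exact_mod_cast hm0.le
  have h6 : (m₀ : ℝ) ≤ 2 * H.index * Real.log ‖ψ (z 0)‖ := by nlinarith
  calc (p : ℝ) ^ s ≤ m₀ * e := h5
    _ ≤ (2 * H.index * Real.log ‖ψ (z 0)‖) * H.index :=
        mul_le_mul h6 b2' (by positivity) (by positivity)
    _ = _ := by ring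

theorem den (h : NAStmt) : DenStmt := by
  intro p q c I hp hpq hco
  obtain ⟨dc, hdc, Hc, -, hSz⟩ := exists_Sz c
  refine ⟨dc ^ q ^ (2 * I ^ 2 * dc), by positivity, fun D H hH hI hfix j hj => ?_⟩
  refine integral_of_padic fun l _ ψ => ?_
  have hN0 : 0 ≤ ‖(dc : PadicAlgCl l)‖ := norm_nonneg _
  have hN : ‖(dc : PadicAlgCl l)‖ ≤ 1 := IsUltrametricDist.norm_natCast_le_one _ _
  have hloc : ∀ x : Qb, IsIntegral ℤ ((dc : Qb) * x) → ‖(dc : PadicAlgCl l)‖ * ‖ψ x‖ ≤ 1 :=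
    fun x hx => by simpa using padic_le_one ψ hx
  have hc := hloc c hSz.1
  have h0 : ‖(dc : PadicAlgCl l)‖ * ‖ψ (D.t 0)‖ ≤ 1 := by
    have h1 : ‖ψ D.ξ‖ = 1 := norm_root (M := p) (by omega) (by rw [← map_pow, D.hξ, map_one])
    rw [D.ht0, map_mul, norm_mul, h1, one_mul]
    exact hloc _ (cyc_integral hpq hSz.1 (D.u_cyc 0))
  obtain ⟨i, hi, h1, h2⟩ := first (by omega) (D.ht.map ψ) hN0 hN hc h0 j hj
  obtain ⟨s, rfl⟩ := Nat.exists_eq_add_of_le hi
  have hsh : Bwd p q c s fun k => D.t (i + k) := D.ht.shift hj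
  have hs : s ≤ 2 * I ^ 2 * dc := by
    rcases h2 with h2 | h2
    · omega
    · have h3 := h p q hp hpq hco l ψ c s _ H hsh h2 hH
        fun g hg => ⟨hfix g hg _ (by omega), hfix g hg _ hj⟩
      have hd' : (1 : ℝ) ≤ dc := by exact_mod_cast hdc
      have h4 : ‖ψ (D.t i)‖ ≤ dc := by
        have h5 := goodF_padic l dc hdc
        rw [div_le_iff₀ (by linarith)] at h5
        nlinarith [norm_nonneg (ψ (D.t i))]
      have h5 : lp (ψ (D.t (i + 0))) ≤ dc :=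
        lp_le_of_norm_le (by linarith) (h4.trans (by linarith [Real.add_one_le_exp (dc : ℝ)]))
      have h6 : (H.index : ℝ) ^ 2 ≤ (I : ℝ) ^ 2 := by exact_mod_cast Nat.pow_le_pow_left hI 2
      have h7 : (p : ℝ) ^ s ≤ 2 * (I : ℝ) ^ 2 * dc :=
        h3.trans (mul_le_mul (by linarith) h5 (lp_nonneg _) (by positivity))
      have h8 : p ^ s ≤ 2 * I ^ 2 * dc := by exact_mod_cast h7
      exact ((Nat.lt_pow_self (by omega)).trans_le h8).le
  have h3 := grow (by omega) (by omega) (hsh.map ψ) hN0 hN hc h1 s le_rfl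
  rw [map_mul, map_natCast, Nat.cast_pow, norm_mul, norm_pow]
  refine le_trans (mul_le_mul_of_nonneg_right ?_ (norm_nonneg _)) h3
  exact pow_le_pow_of_le_one hN0 hN (Nat.pow_le_pow_right (by omega) hs)

end Pool.Agent.MP_09973c_nt.H65
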