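import Pool.Agent.MP_09973c_nt.H58.SpecF

/-!
Local structure of radical towers and the degree table.
-/

set_option autoImplicit false
set_option linter.unusedSectionVars false

namespace Pool.Agent.MP_09973c_nt.H65

open Finset IntermediateField Classical Pool.Agent.MP_09973c_nt.H58 Pool.Agent.MP_09973c_nt.H31

variable {k Ω : Type} [Field k] [Field Ω] [Algebra k Ω] {r s J : ℕ} {S₀ : Set Ω}

theorem lv_zero (w : ℕ → Ω) : lv w 0 = {w 0} := by
  ext x; simp [lv, eq_comm]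

theorem lv_succ (w : ℕ → Ω) (i : ℕ) : lv w (i + 1) = insert (w (i + 1)) (lv w i) := by
  rw [lv, lv, ← Set.image_insert_eq]
  congr 1
  ext x; simp only [Set.mem_Iic, Set.mem_insert_iff]; omega

theorem mem_lv (w : ℕ → Ω) {i j : ℕ} (h : i ≤ j) : w i ∈ lv w j := ⟨i, h, rfl⟩

theorem lv_mono (w : ℕ → Ω) {i j : ℕ} (h : i ≤ j) : lv w i ⊆ lv w j :=
  Set.image_mono (Set.Iic_subset_Iic.2 h)

theorem lv_finite (w : ℕ → Ω) (i : ℕ) : (lv w i).Finite := (Set.finite_Iic i).image w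

theorem pow_mem_adjoin (T : Tw k r s J S₀) {i : ℕ} (hi : i < J) {S : Set Ω} (h : T.w i ∈ S) :
    T.w (i + 1) ^ r ∈ adjoin k S := by
  rw [T.hw i hi]
  exact add_mem (pow_mem (subset_adjoin k S h) _) ((adjoin k S).algebraMap_mem _)

theorem ord_pow_sub [CharZero k] (P : Plc k Ω) {x : Ω} {β : k} (h : P.Red x β) {n : ℕ}
    (hn : 0 < n) : P.ord (x ^ n - algebraMap k Ω β ^ n) =
      (if β = 0 then (n : ℝ) else 1) * P.ord (x - algebraMap k Ω β) := by
  split_ifs with h0
  · subst h0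
    rw [map_zero, zero_pow hn.ne', sub_zero, sub_zero, P.ord_pow]
  · rw [one_mul]
    exact P.ord_congr (val_sep P.ν (h.eq_one h0) h (P.ν_nat hn))

theorem tow1 [CharZero k] (P : Plc k Ω) (hr : 2 ≤ r) (hs : 2 ≤ s) (T : Tw k r s J S₀)
    (hb : P.Loc T.b) : ∀ i ≤ J, P.ν (T.w i) ≤ 1 ∧ ∀ β : k, P.Red (T.w i) β →
      P.ord (T.w i - algebraMap k Ω β) =
        ((s : ℝ) / r) ^ P.nz T.w i / if β = 0 then (s : ℝ) else 1 := by
  intro i
  induction i with
  | zero =>
    intro _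
    have h := hb.smul T.hκ
    rw [← T.h0] at h
    refine ⟨h.eq_one.le, fun β hβ => ?_⟩
    obtain ⟨β₀, h0, h1⟩ := h
    obtain rfl := hβ.unique (Plc.red_of_ord (by rw [h1]; exact one_pos))
    rw [h1, if_neg h0, Plc.nz_zero]; simp
  | succ i ih =>
    intro hi
    obtain ⟨h1, h2⟩ := ih (by omega)
    obtain ⟨β₀, hβ₀⟩ := P.res _ h1
    have hw := T.hw i (by omega)
    have h3 : P.Red (T.w (i + 1) ^ r) (β₀ ^ s + T.c) := by
      rw [hw]; exact (Plc.Red.pow hβ₀ s).add (Plc.red_const _)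
    refine ⟨?_, fun β hβ => ?_⟩
    · have := h3.le_one
      rw [map_pow] at this
      exact (pow_le_one_iff_of_nonneg zero_le (by omega)).1 this
    · have h4 := (hβ.pow r).unique h3
      have h5 : T.w (i + 1) ^ r - algebraMap k Ω β ^ r = T.w i ^ s - algebraMap k Ω β₀ ^ s := by
        rw [hw, ← map_pow, h4, map_add, map_pow]; ring
      have h6 := ord_pow_sub P hβ (n := r) (by omega)
      have hs' : (s : ℝ) ≠ 0 := by positivity
      have hr' : (r : ℝ) ≠ 0 := by positivity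
      rw [h5, ord_pow_sub P hβ₀ (by omega), h2 β₀ hβ₀,
        mul_div_cancel₀ _ (by split_ifs <;> simp [hs'])] at h6
      rw [Plc.nz_succ]
      by_cases h0 : β = 0
      · rw [if_pos h0] at h6 ⊢
        rw [if_pos (hβ.eq_zero_iff.1 h0), pow_succ, h6]
        field_simp
      · rw [if_neg h0] at h6 ⊢
        rw [if_neg (fun h => h0 (hβ.eq_zero_iff.2 h)), add_zero, h6]
        simp

theorem vg_tower [CharZero k] [IsAlgClosed Ω] (P : Plc k Ω) (hr : 2 ≤ r) (T : Tw k r s J S₀)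
    {S : Set Ω} (hb : T.b ∈ S) {g : ℝ} (h : P.VG S g) : ∀ j ≤ J,
    (∀ i ≤ j, ∃ n : ℤ, P.ord (T.w i) = n * g) → P.VG (S ∪ lv T.w j) g := by
  intro j
  induction j with
  | zero =>
    intro _ _
    refine h.anti (Set.union_subset (subset_adjoin k S) ?_)
    rw [lv_zero, Set.singleton_subset_iff, T.h0]
    exact mul_mem ((adjoin k S).algebraMap_mem _) (subset_adjoin k S hb)
  | succ j ih =>
    intro hj ho
    rw [lv_succ, Set.union_insert]
    exact (ih (by omega) fun i hi => ho i (by omega)).adj (r := r) (by omega)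
      (pow_mem_adjoin T (by omega) (Or.inr (mem_lv _ le_rfl))) (ho _ le_rfl)

theorem ord_zero_level [CharZero k] (P : Plc k Ω) (hr : 2 ≤ r) (hs : 2 ≤ s) (T : Tw k r s J S₀)
    (hb : P.Loc T.b) {i : ℕ} (hi : i < J) (h : P.ν (T.w (i + 1)) < 1) :
    P.ord (T.w (i + 1)) = (s : ℝ) ^ P.nz T.w i / r ^ (P.nz T.w i + 1) := by
  have h1 := (tow1 P hr hs T hb (i + 1) hi).2 0 (Plc.red_zero.2 h)
  rw [map_zero, sub_zero, if_pos rfl, Plc.nz_succ, if_pos h] at h1
  have hs' : (s : ℝ) ≠ 0 := by positivity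
  rw [h1, div_pow, pow_succ]
  field_simp

theorem ord_level [CharZero k] (P : Plc k Ω) (hr : 2 ≤ r) (hs : 2 ≤ s) (T : Tw k r s J S₀)
    (hb : P.Loc T.b) {i n : ℕ} (hi : i ≤ J) (hn : P.nz T.w i ≤ n) :
    ∃ a : ℤ, P.ord (T.w i) = a * (1 / (r : ℝ) ^ n) := by
  rcases (tow1 P hr hs T hb i hi).1.eq_or_lt with h | h
  · exact ⟨0, by rw [P.ord_eq_zero h]; simp⟩
  · cases i with
    | zero =>
      have h1 := (hb.smul T.hκ).eq_one
      rw [← T.h0] at h1
      exact absurd h1 h.ne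
    | succ i =>
      rw [Plc.nz_succ, if_pos h] at hn
      obtain ⟨e, rfl⟩ := Nat.exists_eq_add_of_le hn
      refine ⟨s ^ P.nz T.w i * r ^ e, ?_⟩
      have hr' : (r : ℝ) ≠ 0 := by positivity
      rw [ord_zero_level P hr hs T hb hi h, pow_add _ _ e]
      push_cast
      field_simp

theorem tow : TowStmt := by
  intro k Ω _ _ _ _ _ _ r s J S₀ P hr hs hco
  refine ⟨tow1 P hr hs, fun I _ T A j m hV hL hj hm hn hz => ?_⟩
  have hr' : (r : ℝ) ≠ 0 := by positivity
  have key : ∀ A : Set I, (∀ m' ∈ A, j m' ≤ J) →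
      (∀ m' ∈ A, P.nz (T m').w (j m') ≤ P.nz (T m).w (j m)) →
      P.VG (S₀ ∪ ⋃ m' ∈ A, lv (T m').w (j m')) (1 / (r : ℝ) ^ P.nz (T m).w (j m)) := by
    intro A
    induction A, Set.toFinite A using Set.Finite.induction_on with
    | empty =>
      intro _ _
      simpa using hV.div (g' := 1 / (r : ℝ) ^ P.nz (T m).w (j m)) (r ^ P.nz (T m).w (j m))
        (by push_cast; field_simp)
    | @insert a A _ _ ih =>
      intro h1 h2
      rw [Set.biUnion_insert, Set.union_comm (lv _ _), ← Set.union_assoc]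
      refine vg_tower P hr (T a) (Or.inl (T a).hb)
        (ih (fun x hx => h1 x (Or.inr hx)) fun x hx => h2 x (Or.inr hx)) _ (h1 a (Or.inl rfl))
        fun i hi => ord_level P hr hs _ (hL a) (hi.trans (h1 a (Or.inl rfl)))
          ((P.nz_mono _ hi).trans (h2 a (Or.inl rfl)))
  have ho := ord_zero_level P hr hs (T m) (hL m) hm hz
  refine (key A hj hn).powInd (by positivity) (P.ne_zero_of_ord (by rw [ho]; positivity))
    (a := s ^ P.nz (T m).w (j m)) (Nat.isCoprime_iff_coprime.2 hco).pow_right ?_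
  rw [ho, pow_succ]
  push_cast
  field_simp

section Table

variable [CharZero k] [IsAlgClosed Ω] {Δ : ℕ}

omit [CharZero k] [IsAlgClosed Ω] in
theorem dl_symm (w w' : ℕ → Ω) (i j : ℕ) : dl k S₀ w w' i j = dl k S₀ w' w j i := by
  rw [dl, dl, Set.union_right_comm]

omit [CharZero k] [IsAlgClosed Ω] in
theorem alg_of (hB : Bs k S₀ Δ) (A : Tw k r s J S₀) {S : Set Ω} (h : A.b ∈ S) :
    Algebra.IsAlgebraic (adjoin k S) Ω :=
  isAlgebraic_mono (Set.singleton_subset_iff.2 (subset_adjoin k S h)) (hB.tr _ A.hb).2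

theorem dl_pos (hB : Bs k S₀ Δ) (A : Tw k r s J S₀) (w w' : ℕ → Ω) (i j : ℕ) :
    0 < dl k S₀ w w' i j :=
  Nat.pos_of_ne_zero (relIndex_ne_zero_of_finite (alg_of hB A A.hb)
    ((hB.fin.union (lv_finite _ _)).union (lv_finite _ _)))

omit [CharZero k] [IsAlgClosed Ω] in
theorem dl_succ (w w' : ℕ → Ω) (i j : ℕ) : dl k S₀ w w' (i + 1) j =
    (Fix k (insert (w (i + 1)) (S₀ ∪ lv w i ∪ lv w' j))).relIndex (Fix k (S₀ ∪ lv w i ∪ lv w' j)) *
      dl k S₀ w w' i j := by
  rw [dl, dl, lv_succ, Set.union_insert, Set.insert_union, Subgroup.relIndex_mul_relIndex]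
  · exact Fix_anti (Set.subset_insert _ _)
  · exact Fix_anti (Set.subset_union_left.trans Set.subset_union_left)

omit [CharZero k] [IsAlgClosed Ω] in
theorem step_le (hr : 2 ≤ r) (A : Tw k r s J S₀) (w' : ℕ → Ω) {i : ℕ} (hi : i < J) (j : ℕ) :
    (Fix k (insert (A.w (i + 1)) (S₀ ∪ lv A.w i ∪ lv w' j))).relIndex
      (Fix k (S₀ ∪ lv A.w i ∪ lv w' j)) ≤ r :=
  (relIndex_root (by omega) (pow_mem_adjoin A hi (Or.inl (Or.inr (mem_lv _ le_rfl))))).2

/-- A full step in the degree table is the independence of the powers. -/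
theorem dl_full_iff (hr : 2 ≤ r) (hB : Bs k S₀ Δ) (A : Tw k r s J S₀) (w' : ℕ → Ω) {i : ℕ}
    (hi : i < J) (j : ℕ) : dl k S₀ A.w w' (i + 1) j = r * dl k S₀ A.w w' i j ↔
      PowInd k (S₀ ∪ lv A.w i ∪ lv w' j) (A.w (i + 1)) r := by
  rw [powInd_iff (alg_of hB A (Or.inl (Or.inl A.hb))), dl_succ,
    Nat.mul_left_inj (dl_pos hB A _ _ _ _).ne']
  exact ⟨fun h => h.ge, fun h => le_antisymm (step_le hr A w' hi j) h⟩

theorem dl_an (hr : 2 ≤ r) (hB : Bs k S₀ Δ) (A : Tw k r s J S₀) (w' : ℕ → Ω) {i : ℕ}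
    (hi : i < J) {j j' : ℕ} (hj : j ≤ j')
    (h : dl k S₀ A.w w' (i + 1) j' = r * dl k S₀ A.w w' i j') :
    dl k S₀ A.w w' (i + 1) j = r * dl k S₀ A.w w' i j := by
  rw [dl_full_iff hr hB A w' hi] at h ⊢
  exact h.mono ((Set.union_subset_union_right _ (lv_mono _ hj)).trans (subset_adjoin k _))

omit [CharZero k] [IsAlgClosed Ω] in
theorem ord_pole (hr : 2 ≤ r) (hs : 2 ≤ s) (P : Plc k Ω) (A : Tw k r s J S₀)
    (h : P.ord A.b = -1) : ∀ i ≤ J, P.ord (A.w i) = -((s : ℝ) ^ i / r ^ i) := by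
  intro i
  induction i with
  | zero =>
    intro _
    rw [A.h0, P.ord_mul (by simpa using A.hκ) (P.ne_zero_of_ord (by rw [h]; simp)), P.ord_const, h]
    simp
  | succ i ih =>
    intro hi
    have h1 := ih (by omega)
    have hr' : (r : ℝ) ≠ 0 := by positivity
    have h2 : P.ord (A.w i ^ s) < 0 := by
      rw [P.ord_pow, h1]
      exact mul_neg_of_pos_of_neg (by positivity) (neg_neg_of_pos (by positivity))
    have h3 := P.ord_congr (P.ν.map_add_eq_of_lt_left
      ((P.triv A.c).trans_lt (P.ord_neg_iff.1 h2)))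
    rw [← A.hw i (by omega), P.ord_pow, P.ord_pow, h1] at h3
    rw [pow_succ, pow_succ]
    field_simp at h3 ⊢
    linarith

end Table

theorem dlt (hE : PlcExStmt) (hP : PFStmt) (hT : TowStmt) : DLStmt := by
  intro k Ω _ _ _ _ _ _ r s J Δ S₀ A B hr hs hco hB
  refine ⟨⟨fun i _ j _ => dl_pos hB A _ _ _ _, fun i i' j j' hi _ hj _ => ?_,
    fun i hi j _ => ?_, fun i _ j hj => ?_, fun i hi j j' hj _ => dl_an hr hB A _ hi hj,
    fun j hj i i' hi _ h => ?_⟩, dl_symm _ _, fun P hV hA hB' i hi j hj hn hz => ?_,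
    fun i hi => ?_⟩
  · exact Subgroup.relIndex_le_of_le_left (Fix_anti (Set.union_subset_union
      (Set.union_subset_union_right _ (lv_mono _ hi)) (lv_mono _ hj))) (dl_pos hB A _ _ _ _).ne'
  · rw [dl_succ]
    exact Nat.mul_le_mul_right _ (step_le hr A _ hi j)
  · rw [dl_symm, dl_symm A.w B.w i j, dl_succ]
    exact Nat.mul_le_mul_right _ (step_le hr B _ hj i)
  · rw [dl_symm, dl_symm A.w] at h ⊢
    exact dl_an hr hB B _ hj hi h
  · rw [dl_full_iff hr hB A _ hi]
    have := (hT k Ω r s J S₀ P hr hs hco).2 Bool (fun b => cond b A B) Set.univ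
      (fun b => cond b i j) true hV (by rintro (_ | _) <;> assumption)
      (by rintro (_ | _) _ <;> simp [hj, hi.le]) hi (by rintro (_ | _) _ <;> simp [hn]) hz
    refine this.mono (Set.Subset.trans ?_ (subset_adjoin k _))
    rw [Set.union_assoc]
    refine Set.union_subset_union_right _ (Set.union_subset ?_ ?_)
    · exact Set.subset_biUnion_of_mem (u := fun b => lv (cond b A B).w (cond b i j))
        (Set.mem_univ true)
    · exact Set.subset_biUnion_of_mem (u := fun b => lv (cond b A B).w (cond b i j))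
        (Set.mem_univ false)
  · obtain ⟨P, hP0, -⟩ := hE k Ω A.b (hB.tr _ A.hb).1 (hB.tr _ A.hb).2
    have hr' : (r : ℝ) ≠ 0 := by positivity
    have ho := ord_pole hr hs (P none) A hP0
    have h1 := (((hP k Ω).2.1 (P none) A.b hP0).1.div (g' := 1 / (r : ℝ) ^ i) (r ^ i)
      (by push_cast; field_simp))
    have h2 := vg_tower (P none) hr A (Set.mem_singleton _) h1 i hi.le fun l hl => by
      obtain ⟨e, rfl⟩ := Nat.exists_eq_add_of_le hl
      refine ⟨-(s ^ l * r ^ e), ?_⟩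
      rw [ho l (by omega), pow_add]
      push_cast
      field_simp
    refine h2.powInd (by positivity) ((P none).ne_zero_of_ord ?_) (a := -s ^ (i + 1))
      (Nat.isCoprime_iff_coprime.2 hco).pow_right.neg_right ?_
    · rw [ho _ hi]
      exact neg_ne_zero.2 (by positivity)
    · rw [ho _ hi, pow_succ (r : ℝ)]
      push_cast
      field_simp

end Pool.Agent.MP_09973c_nt.H65
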